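import Pool.Agent.Helper15.RA.GoalsH

/-!
# Project RA, packet NG: a Coxeter group which is a graph product has the structure `GP`
-/

set_option autoImplicit false

noncomputable section

namespace Pool.Agent.Helper10.RA

open Pool.Agent.Helper15.RA

section

variable {I V W : Type} [Group W] {M : CoxeterMatrix I} (cs : CoxeterSystem M W) (π : I → V)

theorem iota_simple (v : V) (i : {i // π i = v}) :
    iota cs π v ((sub M π v).toCoxeterSystem.simple i) = cs.simple i.1 := by
  unfold iota
  exact CoxeterSystem.lift_apply_simple _ (liftable cs π v) i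

theorem iota_comm {Γ : SimpleGraph V} (hg : IsGraphProd M π Γ) {u v : V} (huv : Γ.Adj u v)
    (g : (sub M π u).Group) (h : (sub M π v).Group) :
    iota cs π u g * iota cs π v h = iota cs π v h * iota cs π u g := by
  have key : ∀ (i : {i // π i = u}) (j : {i // π i = v}),
      Commute (cs.simple i.1) (cs.simple j.1) := by
    rintro ⟨i, hi⟩ ⟨j, hj⟩
    have hne : π i ≠ π j := by rw [hi, hj]; exact huv.ne
    have h2 : M i j = 2 := (hg i j hne).1 (by rw [hi, hj]; exact huv)
    have h3 := cs.simple_mul_simple_pow i j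
    rw [h2, pow_two] at h3
    have h4 := eq_inv_of_mul_eq_one_left h3
    rw [mul_inv_rev, cs.inv_simple, cs.inv_simple] at h4
    exact h4
  have key2 : ∀ (j : {i // π i = v}), Commute (iota cs π u g) (cs.simple j.1) := by
    intro j
    induction g using (sub M π u).toCoxeterSystem.simple_induction with
    | simple i => rw [iota_simple]; exact key i j
    | one => rw [map_one]; exact Commute.one_left _
    | mul a b ha hb => rw [map_mul]; exact ha.mul_left hb
  have key3 : Commute (iota cs π u g) (iota cs π v h) := by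
    induction h using (sub M π v).toCoxeterSystem.simple_induction with
    | simple j => rw [iota_simple]; exact key2 j
    | one => rw [map_one]; exact Commute.one_right _
    | mul a b ha hb => rw [map_mul]; exact ha.mul_right hb
  exact key3

end

theorem h_ng (hNF : N_NF) (hNI : N_I) : N_G := by
  intro I V W _ M cs π Γ hgp
  obtain ⟨Y, e, act, len, h1, hmul, hcomm, hlen0, hgen, hcoset, hdia, hrec⟩ :=
    hNF V Γ (fun v => (sub M π v).Group)
  -- the action by permutations
  let actP : ∀ v, (sub M π v).Group →* Equiv.Perm Y := fun v =>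
    { toFun := fun g => ⟨act v g, act v g⁻¹, fun y => by rw [← hmul, inv_mul_cancel, h1],
        fun y => by rw [← hmul, mul_inv_cancel, h1]⟩
      map_one' := Equiv.ext (h1 v)
      map_mul' := fun g h => Equiv.ext (hmul v g h) }
  have actP_apply : ∀ v g y, actP v g y = act v g y := fun _ _ _ => rfl
  let ρ : I → Equiv.Perm Y := fun i => actP (π i) ((sub M π (π i)).toCoxeterSystem.simple ⟨i, rfl⟩)
  have hρ : ∀ (j : I) (v : V) (h : π j = v), actP v ((sub M π v).toCoxeterSystem.simple ⟨j, h⟩) = ρ j := by
    intro j v h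
    subst h
    rfl
  have hρρ : ∀ i, ρ i * ρ i = 1 := by
    intro i
    show actP (π i) _ * actP (π i) _ = 1
    rw [← map_mul, CoxeterSystem.simple_mul_simple_self, map_one]
  have hlift : M.IsLiftable ρ := by
    intro i j
    by_cases hij : π i = π j
    · rw [← hρ i (π j) hij, ← hρ j (π j) rfl, ← map_mul, ← map_pow]
      have := (sub M π (π j)).toCoxeterSystem.simple_mul_simple_pow ⟨i, hij⟩ ⟨j, rfl⟩
      have h3 : (sub M π (π j)) ⟨i, hij⟩ ⟨j, rfl⟩ = M i j := rfl
      rw [h3] at this
      rw [this, map_one]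
    · by_cases hadj : Γ.Adj (π i) (π j)
      · rw [(hgp i j hij).1 hadj, pow_two]
        have hc : ρ i * ρ j = ρ j * ρ i := Equiv.ext fun y => hcomm _ _ hadj _ _ y
        calc ρ i * ρ j * (ρ i * ρ j) = ρ i * (ρ j * ρ i) * ρ j := by group
          _ = ρ i * (ρ i * ρ j) * ρ j := by rw [hc]
          _ = (ρ i * ρ i) * (ρ j * ρ j) := by group
          _ = 1 := by rw [hρρ, hρρ, one_mul]
      · rw [(hgp i j hij).2 hadj, pow_zero]
  let R : W →* Equiv.Perm Y := cs.lift ⟨ρ, hlift⟩
  have hRs : ∀ i, R (cs.simple i) = ρ i := fun i => cs.lift_apply_simple hlift i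
  have hR : ∀ v g, R (iota cs π v g) = actP v g := by
    intro v g
    have : R.comp (iota cs π v) = actP v := by
      refine (sub M π v).toCoxeterSystem.ext_simple fun i => ?_
      show R (iota cs π v _) = _
      rw [iota_simple, hRs]
      exact (hρ i.1 v i.2).symm
    rw [← this]
    rfl
  have hcm := fun {u v : V} (huv : Γ.Adj u v) (g : (sub M π u).Group) (h : (sub M π v).Group) =>
    iota_comm cs π hgp huv g h
  obtain ⟨ψ, hψe, hψ⟩ := hrec W (fun v g => iota cs π v g) fun u v huv g h => hcm huv g h
  have hback : ∀ v k y, act v k⁻¹ (act v k y) = y := fun v k y => by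
    rw [← hmul, inv_mul_cancel, h1]
  have hψ' : ∀ v g y, ψ (act v g y) = iota cs π v g * ψ y := by
    intro v g y
    obtain ⟨k, hk⟩ := hcoset v y
    have aux : ∀ h, ψ (act v h (act v k y)) = iota cs π v h * ψ (act v k y) := by
      intro h
      by_cases h0 : h = 1
      · rw [h0, h1, map_one, one_mul]
      · exact hψ v h _ h0 (hk h h0)
    have e1 := aux k⁻¹
    rw [hback] at e1
    have e2 := aux (g * k⁻¹)
    rw [hmul, hback] at e2
    rw [e2, e1, map_mul, mul_assoc]
  have hψR : ∀ w y, ψ (R w y) = w * ψ y := by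
    intro w
    induction w using cs.simple_induction with
    | simple i =>
      intro y
      rw [hRs]
      show ψ (act (π i) _ y) = _
      rw [hψ', iota_simple]
    | one => intro y; rw [map_one, one_mul]; rfl
    | mul a b ha hb =>
      intro y
      rw [map_mul, Equiv.Perm.mul_apply, ha, hb, mul_assoc]
  have hψw : ∀ w, ψ (R w e) = w := fun w => by rw [hψR, hψe, mul_one]
  have hRi : ∀ v g w, R (iota cs π v g * w) e = act v g (R w e) := by
    intro v g w
    rw [map_mul, Equiv.Perm.mul_apply, hR]
    rfl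
  have hinj : ∀ v, Function.Injective (iota cs π v) := fun v => (hNI I V W M cs π Γ hgp v).2.1
  have hne : ∀ v g, iota cs π v g ≠ 1 → g ≠ 1 := fun v g h h0 => h (by rw [h0, map_one])
  -- lengths
  have hle : ∀ v a y, len (act v a y) ≤ len y + 1 := by
    intro v a y
    obtain ⟨k, hk⟩ := hcoset v y
    have e1 : len (act v k y) ≤ len y := by
      by_cases h0 : k⁻¹ = 1
      · rw [inv_eq_one.1 h0, h1]
      · have := hk k⁻¹ h0
        rw [hback] at this
        omega
    have e2 : len (act v a y) ≤ len (act v k y) + 1 := by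
      have e3 : act v a y = act v (a * k⁻¹) (act v k y) := by rw [hmul, hback]
      rw [e3]
      by_cases h0 : a * k⁻¹ = 1
      · rw [h0, h1]
        omega
      · rw [hk _ h0]
    omega
  have hsyl : ∀ v a, a ≠ 1 → len (act v a e) = 1 := by
    intro v a ha
    obtain ⟨k, hk⟩ := hcoset v e
    have hk1 : k = 1 := by
      by_contra h0
      have := hk k⁻¹ (inv_ne_one.2 h0)
      rw [hback] at this
      omega
    subst hk1
    have := hk a ha
    rw [h1] at this
    rw [this, hlen0]
  -- factorizations
  have hlist : ∀ l : List W, (∀ g ∈ l, ∃ v a, iota cs π v a = g) → len (R l.prod e) ≤ l.length := by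
    intro l
    induction l with
    | nil =>
      intro _
      rw [List.prod_nil, map_one, List.length_nil]
      exact hlen0.le
    | cons g l ih =>
      intro hl
      obtain ⟨v, a, rfl⟩ := hl g List.mem_cons_self
      rw [List.prod_cons, hRi, List.length_cons]
      exact (hle v a _).trans (Nat.succ_le_succ (ih fun g hg => hl g (List.mem_cons_of_mem _ hg)))
  have hfac : ∀ (n : ℕ) (w : W), len (R w e) = n →
      ∃ l : List W, (∀ g ∈ l, ∃ v a, iota cs π v a = g) ∧ l.length = n ∧ l.prod = w := by
    intro n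
    induction n with
    | zero =>
      intro w hw
      refine ⟨[], by simp, rfl, ?_⟩
      by_contra h0
      have hy : R w e ≠ e := fun h => h0 (by rw [← hψw w, h, hψe]; rfl)
      obtain ⟨v, g, -, h3⟩ := hgen _ hy
      omega
    | succ n ih =>
      intro w hw
      have hy : R w e ≠ e := fun h => by rw [h, hlen0] at hw; omega
      obtain ⟨v, g, -, h3⟩ := hgen _ hy
      obtain ⟨l, hl1, hl2, hl3⟩ := ih (iota cs π v g⁻¹ * w) (by rw [hRi]; omega)
      refine ⟨iota cs π v g :: l, ?_, by rw [List.length_cons, hl2], ?_⟩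
      · intro g' hg'
        rcases List.mem_cons.1 hg' with h | h
        · exact ⟨v, g, h.symm⟩
        · exact hl1 g' h
      · rw [List.prod_cons, hl3, ← mul_assoc, ← map_mul, mul_inv_cancel, map_one, one_mul]
  have hinv : ∀ w, len (R w⁻¹ e) ≤ len (R w e) := by
    intro w
    obtain ⟨l, hl1, hl2, hl3⟩ := hfac _ w rfl
    have h3 := hlist (l.map fun g => g⁻¹).reverse (by
      intro g hg
      rw [List.mem_reverse, List.mem_map] at hg
      obtain ⟨g', hg', rfl⟩ := hg
      obtain ⟨v, a, rfl⟩ := hl1 g' hg'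
      exact ⟨v, a⁻¹, map_inv _ _⟩)
    rw [← List.prod_inv_reverse, hl3, List.length_reverse, List.length_map, hl2] at h3
    exact h3
  refine ⟨fun w => len (R w e), ?_⟩
  constructor
  · rintro u v huv _ ⟨g, rfl⟩ _ ⟨h, rfl⟩
    exact hcm huv g h
  · rintro u v huv _ ⟨a, rfl⟩ ⟨b, hb⟩
    by_contra h0
    have ha1 := hne u a h0
    have hb1 := hne v b (by rw [hb]; exact h0)
    have e1 : act u a e = act v b e := by
      have e2 := hRi u a 1
      have e3 := hRi v b 1
      rw [hb] at e3
      rw [map_one] at e2 e3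
      exact e2.symm.trans e3
    have e4 := hdia u v huv a⁻¹ b⁻¹ (act u a e) (by rw [hback, hlen0, hsyl u a ha1])
      (by rw [e1, hback, hlen0, hsyl v b hb1])
    rw [hsyl u a ha1] at e4
    omega
  · intro w hw
    have hy : R w e ≠ e := fun h => hw (by rw [← hψw w, h, hψe])
    obtain ⟨v, g, hg, h3⟩ := hgen _ hy
    refine ⟨v, iota cs π v g, ⟨g, rfl⟩, fun h => hg (hinj v (by rw [h, map_one])), ?_⟩
    show len (R ((iota cs π v g)⁻¹ * w) e) + 1 = len (R w e)
    rw [← map_inv, hRi]
    exact h3
  · show len (R 1 e) = 0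
    rw [map_one]
    exact hlen0
  · intro w
    show len (R w⁻¹ e) = len (R w e)
    have := hinv w⁻¹
    rw [inv_inv] at this
    exact le_antisymm (hinv w) this
  · intro x y
    show len (R (x * y) e) ≤ len (R x e) + len (R y e)
    obtain ⟨l, hl1, hl2, hl3⟩ := hfac _ x rfl
    obtain ⟨l', hl1', hl2', hl3'⟩ := hfac _ y rfl
    have h3 := hlist (l ++ l') (by
      intro g hg
      rcases List.mem_append.1 hg with h | h
      · exact hl1 g h
      · exact hl1' g h)
    rwa [List.prod_append, hl3, hl3', List.length_append, hl2, hl2'] at h3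
  · rintro v _ ⟨a, rfl⟩ h0
    show len (R (iota cs π v a) e) = 1
    rw [hR]
    exact hsyl v a (hne v a h0)
  · intro v w
    obtain ⟨k, hk⟩ := hcoset v (R w e)
    refine ⟨iota cs π v k, ⟨k, rfl⟩, ?_⟩
    rintro _ ⟨h, rfl⟩ h0
    show len (R (iota cs π v h * (iota cs π v k * w)) e) = len (R (iota cs π v k * w) e) + 1
    rw [hRi, hRi]
    exact hk h (hne v h h0)
  · rintro u v huv _ ⟨g, rfl⟩ _ ⟨h, rfl⟩ w h2 h3
    change len (R (iota cs π u g * w) e) + 1 = len (R w e) at h2
    change len (R (iota cs π v h * w) e) + 1 = len (R w e) at h3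
    show Γ.Adj u v ∧ len (R (iota cs π v h * (iota cs π u g * w)) e) + 2 = len (R w e)
    rw [hRi] at h2 h3
    rw [hRi, hRi]
    exact hdia u v huv g h _ h2 h3
  · intro N _ f hf
    obtain ⟨ψ', hψe', hψN⟩ := hrec N (fun v g => f (iota cs π v g)) fun u v huv g h =>
      hf u v huv _ ⟨g, rfl⟩ _ ⟨h, rfl⟩
    refine ⟨fun w => ψ' (R w e), ?_, ?_⟩
    · show ψ' (R 1 e) = 1
      rw [map_one]
      exact hψe'
    · rintro v _ ⟨g, rfl⟩ h0 w hw
      change len (R (iota cs π v g * w) e) = len (R w e) + 1 at hw
      show ψ' (R (iota cs π v g * w) e) = f (iota cs π v g) * ψ' (R w e)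
      rw [hRi] at hw
      rw [hRi]
      exact hψN v g _ (hne v g h0) hw

end Pool.Agent.Helper10.RA
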